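import Mathlib
import Pool.Agent.Lib.helper25.AbSq

set_option autoImplicit false

namespace Pool.Agent.Results.MP_72cd34_co.NotBigO

/-- Parikh vector of a word. -/
def parikh {σ : Type} [DecidableEq σ] (x : List σ) : σ → ℕ := fun a => x.count a

/-- An abelian square: a non-empty word `u v` with `u`, `v` of equal Parikh vector. -/
def IsAbelianSquare {σ : Type} [DecidableEq σ] (s : List σ) : Prop :=
  s ≠ [] ∧ ∃ u v : List σ, s = u ++ v ∧ parikh u = parikh v

/-- `N w`: the number of distinct Parikh vectors of abelian squares that are factors of `w`. -/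
noncomputable def N {σ : Type} [DecidableEq σ] (w : List σ) : ℕ :=
  Set.ncard {P : σ → ℕ | ∃ s : List σ, s <:+: w ∧ IsAbelianSquare s ∧ parikh s = P}

lemma fin_set {σ : Type} [DecidableEq σ] (w : List σ) :
    Set.Finite {P : σ → ℕ | ∃ s : List σ, s <:+: w ∧ IsAbelianSquare s ∧ parikh s = P} := by
  apply Set.Finite.subset ((w.sublists.toFinset.finite_toSet).image parikh)
  rintro P ⟨s, h1, -, rfl⟩
  exact ⟨s, by simpa using h1.sublist, rfl⟩

lemma binary (C : ℝ) : ∃ w : List Bool, C * (w.length : ℝ) ^ ((3 : ℝ) / 2) < (N w : ℝ) := by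
  obtain ⟨t, ht, hg⟩ := Pool.Agent.Lib.H25AbSq.growth C
  obtain ⟨w, S, hw, hS, H⟩ := Pool.Agent.Lib.H25AbSq.many t ht
  refine ⟨w, lt_of_lt_of_le (hg _ hw) ?_⟩
  have h3 : S.card ≤ N w := by
    rw [← Set.ncard_coe_finset]
    apply Set.ncard_le_ncard_of_injOn
      (fun c : ℕ × ℕ => (fun b : Bool => if b = true then 2 * c.2 else 2 * c.1)) _ _ (fin_set w)
    · intro c hc
      obtain ⟨l, u, v, z, e1, e2, e3, e4, e5, e6⟩ := H c hc
      refine ⟨u ++ v, ⟨l, z, by simp [e1]⟩, ⟨by simp [e2], u, v, rfl, ?_⟩, ?_⟩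
      · funext b
        cases b <;> simp [parikh, e3, e4, e5, e6]
      · funext b
        cases b <;> simp [parikh, e3, e4, e5, e6] <;> omega
    · intro c _ c' _ h
      have e1 := congrFun h true
      have e2 := congrFun h false
      simp at e1 e2
      ext <;> omega
  rw [hS] at h3
  exact_mod_cast h3

theorem result :
    (¬ ∃ C : ℝ, ∀ (σ : Type) [Fintype σ] [DecidableEq σ] (w : List σ),
      (N w : ℝ) ≤ C * (w.length : ℝ) ^ ((3 : ℝ) / 2)) ∧
    ∀ C : ℝ, ∃ w : List Bool, C * (w.length : ℝ) ^ ((3 : ℝ) / 2) < (N w : ℝ) := by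
  refine ⟨?_, binary⟩
  rintro ⟨C, hC⟩
  obtain ⟨w, hw⟩ := binary C
  exact absurd (hC Bool w) (not_le.mpr hw)

end Pool.Agent.Results.MP_72cd34_co.NotBigO
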